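import Mathlib
import Pool.Agent.Lib.helper12.Idem

namespace Pool.Agent.Results.MP_6ebba1_al.NonDiag

open Module Pool.Agent.Lib.helper12.Idem

section defs
variable {K V : Type} [Field K] [AddCommGroup V] [Module K V] {d : ℕ}

/-- `θ` lists the eigenvalues of the diagonalizable map `A` without repetition, and `B` acts
tridiagonally on the eigenspaces of `A` in this order -/
def Std (A B : Module.End K V) (θ : Fin (d + 1) → K) : Prop :=
  Function.Injective θ ∧ (∀ i, A.eigenspace (θ i) ≠ ⊥) ∧ (⨆ i, A.eigenspace (θ i)) = ⊤ ∧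
    ∀ i, (A.eigenspace (θ i)).map B ≤
      ⨆ j, ⨆ (_ : j.val ≤ i.val + 1 ∧ i.val ≤ j.val + 1), A.eigenspace (θ j)

def TDPair (A B : Module.End K V) (θ φ : Fin (d + 1) → K) : Prop :=
  Std A B θ ∧ Std B A φ ∧
    ∀ W : Submodule K V, W.map A ≤ W → W.map B ≤ W → W = ⊥ ∨ W = ⊤

def Admissible (A B : Module.End K V) (θ φ : Fin (d + 1) → K) (S : Module.End K V) : Prop :=
  ∀ i, (A.eigenspace (θ i)).map S = A.eigenspace (θ i) ∧
    (⨆ j, ⨆ (_ : j.val ≤ i.val), B.eigenspace (φ j)).map S =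
      ⨆ j, ⨆ (_ : d ≤ j.val + i.val), B.eigenspace (φ j)

end defs

def A : Matrix (Fin 4) (Fin 4) ℚ := !![2, 0, 0, 0; 0, 0, 0, 0; 0, 0, 0, 0; 0, 0, 0, -2]
def B : Matrix (Fin 4) (Fin 4) ℚ := !![5, 4, 3, 0; -4, -5, 0, 3; 3, 0, 5, 4; 0, 3, -4, -5]
def S : Matrix (Fin 4) (Fin 4) ℚ := !![-1, 0, 0, 0; 0, 16, 10, 0; 0, -10, -4, 0; 0, 0, 0, 4]
def T : Matrix (Fin 4) (Fin 4) ℚ :=
  !![-1, 0, 0, 0; 0, -1/9, -5/18, 0; 0, 5/18, 4/9, 0; 0, 0, 0, 1/4]
def θ : Fin 3 → ℚ := ![2, 0, -2]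
def φ : Fin 3 → ℚ := ![6, 0, -6]
def E : Fin 3 → Matrix (Fin 4) (Fin 4) ℚ :=
  ![!![1, 0, 0, 0; 0, 0, 0, 0; 0, 0, 0, 0; 0, 0, 0, 0],
    !![0, 0, 0, 0; 0, 1, 0, 0; 0, 0, 1, 0; 0, 0, 0, 0],
    !![0, 0, 0, 0; 0, 0, 0, 0; 0, 0, 0, 0; 0, 0, 0, 1]]
def F : Fin 3 → Matrix (Fin 4) (Fin 4) ℚ :=
  ![!![2/3, 1/3, 2/3, 1/3; -1/3, -1/6, -1/3, -1/6; 2/3, 1/3, 2/3, 1/3; -1/3, -1/6, -1/3, -1/6],
    !![1/2, 0, -5/6, -2/3; 0, 1/2, 2/3, 5/6; -5/6, -2/3, 1/2, 0; 2/3, 5/6, 0, 1/2],
    !![-1/6, -1/3, 1/6, 1/3; 1/3, 2/3, -1/3, -2/3; 1/6, 1/3, -1/6, -1/3; -1/3, -2/3, 1/3, 2/3]]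
def p : Fin 4 → List (ℚ × List Bool) := ![[(1, [])],
    [(7/20, []), (-1/4, [false]), (1/40, [false, false]), (1/80, [true, false, false])],
    [(-6/5, []), (1/30, [false, false]), (1/60, [true, false, false])],
    [(-3/4, []), (1/48, [true, false, false])]]
def q : Fin 4 → List (ℚ × List Bool) := ![[(1, [])],
    [(-7/20, []), (1/4, [false]), (-1/40, [false, false]), (-1/80, [false, false, true])],
    [(-6/5, []), (1/30, [false, false]), (1/60, [false, false, true])],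
    [(3/4, []), (-1/48, [false, false, true])]]
def e : List (ℚ × List Bool) := [(1/8, [true, true]), (1/4, [true])]

theorem okA : ok A θ E := by unfold ok; decide +kernel
theorem okB : ok B φ F := by unfold ok; decide +kernel

def N : Matrix (Fin 4) (Fin 4) ℚ := (S + 1) * ((S - (4 : ℚ) • 1) * (S - (6 : ℚ) • 1))

theorem result (K : Type) [Field K] [CharZero K] :
    ∃ (A B S : Module.End K (Fin 4 → K)) (θ φ : Fin 3 → K),
      TDPair A B θ φ ∧ finrank K (A.eigenspace (θ 0)) = 1 ∧ Admissible A B θ φ S ∧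
      (⨆ μ, S.eigenspace μ) ≠ ⊤ := by
  refine ⟨fK K 4 A, fK K 4 B, fK K 4 S, fun i => (θ i : K), fun i => (φ i : K),
    ⟨⟨inj K okA, ne_bot K okA, sup_top K okA, fun i => ?_⟩,
     ⟨inj K okB, ne_bot K okB, sup_top K okB, fun i => ?_⟩, ?_⟩,
    rank K okA 0 1 (by decide +kernel), fun i => ⟨?_, ?_⟩, fun h => ?_⟩
  · rw [single_eq K i]
    refine map_le K okA okA _ _ B ?_
    revert i; decide +kernel
  · rw [single_eq K i]
    refine map_le K okB okB _ _ A ?_
    revert i; decide +kernel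
  · exact irred K A B p q e (fun i => Matrix.single i 0 1) (fun j => Matrix.single 0 j 1)
      (by decide +kernel) (by decide +kernel) (by decide +kernel)
  · rw [single_eq K i]
    refine map_eq K okA okA _ _ S T (by decide +kernel) ?_ ?_
    · revert i; decide +kernel
    · revert i; decide +kernel
  · refine map_eq K okB okB _ _ S T (by decide +kernel) ?_ ?_
    · revert i; decide +kernel
    · revert i; decide +kernel
  · have n0 : N ≠ 0 := by decide +kernel
    have n1 : (S - (6 : ℚ) • 1) * N = 0 := by decide +kernel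
    have : (⨆ μ, (fK K 4 S).eigenspace μ) ≤ LinearMap.ker (fK K 4 N) := iSup_le fun μ v hv => by
      rw [Module.End.mem_eigenspace_iff] at hv
      have a : ∀ (c : ℚ) (t : K), fK K 4 (S - c • 1) (t • v) = ((μ - c) * t) • v := fun c t => by
        rw [map_sub, fK_smul, map_one, map_smul, LinearMap.sub_apply, hv, mul_comm, mul_smul,
          sub_smul]
        rfl
      have b : fK K 4 N v = ((μ + 1) * ((μ - 4) * (μ - 6))) • v := by
        have a6 := a 6 1
        rw [one_smul] at a6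
        rw [N, map_mul, map_mul, Module.End.mul_apply, Module.End.mul_apply, a6, a 4, map_smul,
          map_add, map_one, LinearMap.add_apply, hv, Module.End.one_apply]
        push_cast
        module
      have c : fK K 4 (S - (6 : ℚ) • 1) (fK K 4 N v) = 0 := by
        rw [← Module.End.mul_apply, ← map_mul, n1, map_zero]; rfl
      rw [b, a 6] at c
      rw [LinearMap.mem_ker, b]
      rcases smul_eq_zero.1 c with c | c
      · rcases mul_eq_zero.1 c with c | c
        · have : μ - 6 = 0 := by simpa using c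
          rw [this]; simp
        · rw [c, zero_smul]
      · rw [c, smul_zero]
    rw [h, top_le_iff, LinearMap.ker_eq_top] at this
    exact n0 (fK_ne K this)

end Pool.Agent.Results.MP_6ebba1_al.NonDiag
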